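import Pool.Agent.TDV.Defs
import Pool.Agent.Helper56_TB.Games

/-!
# Squad TDV (MP_917879_lc): statements

Text: `/team-store/PAPER_TDV.md`.
-/

set_option autoImplicit false

noncomputable section

namespace Pool.Agent.TDV

open Pool.Agent.Helper25TD

/-! ## `V`-equivalence -/

/-- `x (+) y`: the values of `x` at the even positions, the values of `y` at the odd positions -/
def jo (x y : ℕ → Bool) : ℕ → Bool := fun n => if n % 2 = 0 then x (n / 2) else y (n / 2)

/-- `x` and `x'` are not separated by a `V`-invariant set -/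
def Eqv (x x' : ℕ → Bool) : Prop := ∀ A, VInv A → (x ∈ A ↔ x' ∈ A)

/-- `a` is below `b`: the restriction `t` of `b` to some residue class modulo `2 ^ k` satisfies
`t = t (+) a`. -/
def Below (a b : ℕ → Bool) : Prop := ∃ k i, i < 2 ^ k ∧ ∀ n,
  b (2 ^ k * (2 * n) + i) = b (2 ^ k * n + i) ∧ b (2 ^ k * (2 * n + 1) + i) = a n

/-- VCL: reals below each other are equivalent. -/
def VclStmt : Prop := ∀ a b : ℕ → Bool, Below a b → Below b a → Eqv a b

/-! ## Columns -/

/-- the exponent of two in `n` (the number `e` if `n = 2 ^ e * (2 * m + 1)`) -/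
def vl (n : ℕ) : ℕ := (List.range (n + 1)).findIdx fun e => decide ((n / 2 ^ e) % 2 = 1)

/-- the number `m` if `n = 2 ^ e * (2 * m + 1)` -/
def mu (n : ℕ) : ℕ := n / 2 ^ vl n / 2

/-- the history of the column containing the position `|p|`: the entries of `p` at the positions
`2 ^ e * (2 * i + 1)`, `i < m`, if `|p| = 2 ^ e * (2 * m + 1)`. -/
def colp (p : List Bool) : List Bool :=
  (List.range (mu p.length)).map fun i => p.getD (2 ^ vl p.length * (2 * i + 1)) false

/-- VLM: arithmetic of `vl` and `mu`, computability. -/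
def VlmStmt : Prop :=
  (∀ e m : ℕ, vl (2 ^ e * (2 * m + 1)) = e ∧ mu (2 ^ e * (2 * m + 1)) = m) ∧
  (∀ n : ℕ, n ≠ 0 → 2 ^ vl n * (2 * mu n + 1) = n) ∧
  (∀ n : ℕ, n ≠ 0 → mu (2 * n) = mu n) ∧ (∀ n : ℕ, mu (2 * n + 1) = n) ∧
  (∀ n : ℕ, mu n ≤ n) ∧ (∀ n : ℕ, n ≠ 0 → mu n < n) ∧
  Primrec vl ∧ Primrec mu ∧ Primrec colp ∧ (Primrec fun n : ℕ => 2 ^ n)

/-- `a` with infinitely many copies: the real `t` with `t (2 ^ e * (2 * n + 1)) = a n`, `t 0 = 0` -/
def pw (a : ℕ → Bool) : ℕ → Bool := fun n => if n = 0 then false else a (mu n)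

/-! ## The adaptive jump -/

/-- the question number `|p|`, with the history `p`, and the string `r` -/
def QU (p r : List Bool) : Part ℕ :=
  if p.length = 0 then Part.none else
    (Denumerable.ofNat Nat.Partrec.Code (vl p.length)).eval (Encodable.encode (colp p, r))

/-- the event: the answer to the question number `|p|` with the history `p` is positive for `y` -/
def Ask (p : List Bool) (y : ℕ → Bool) : Prop := ∃ N, 1 ∈ QU p (pre y N)

open Classical in
/-- the first `n` values of `K y` -/
def Kh (y : ℕ → Bool) : ℕ → List Bool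
  | 0 => []
  | n + 1 => Kh y n ++ [decide (Ask (Kh y n) y)]

open Classical in
/-- the adaptive jump of `y` -/
def K (y : ℕ → Bool) : ℕ → Bool := fun n => decide (Ask (Kh y n) y)

/-- KSP: the characterization of `K`; `K` is Borel measurable. -/
def KspStmt : Prop :=
  (∀ y n, pre (K y) n = Kh y n) ∧ (∀ y n, K y n = true ↔ Ask (pre (K y) n) y) ∧
  (∀ y, K y 0 = false) ∧
  (∀ y e m, K y (2 ^ e * (2 * m + 1)) = true ↔ ∃ N, 1 ∈ (Denumerable.ofNat Nat.Partrec.Code e).eval
    (Encodable.encode (pre (fun i => K y (2 ^ e * (2 * i + 1))) m, pre y N))) ∧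
  Measurable K

/-- UNI: `QU` is partial recursive. -/
def UniStmt : Prop := Partrec fun q : List Bool × List Bool => QU q.1 q.2

/-- COL: a process which asks questions about its own past is a column of `K y`. -/
def ColStmt : Prop := ∀ f : List Bool × List Bool →. ℕ, Partrec f → ∃ e, ∀ (y b : ℕ → Bool),
  (∀ n, b n = true ↔ ∃ N, 1 ∈ f (pre b n, pre y N)) → ∀ n, K y (2 ^ e * (2 * n + 1)) = b n

/-- LMG: the main lemma. -/
def LmgStmt : Prop := ∀ (y a : ℕ → Bool) (f : (List Bool × List Bool) × List Bool →. ℕ),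
  Partrec f → (∀ n, a n = true ↔ ∃ N, 1 ∈ f ((pre a n, pre (K y) (n + 1)), pre y N)) →
  Below a (K y)

/-- LMP: the main lemma for decidable events. -/
def LmpStmt : Prop := ∀ (y a : ℕ → Bool) (Q : (List Bool × List Bool) × List Bool → Bool),
  Primrec Q → (∀ n, a n = true ↔ ∃ N, Q ((pre a n, pre (K y) (n + 1)), pre y N) = true) →
  Below a (K y)

/-- TUR: `K` is monotone. -/
def TurStmt : Prop := ∀ y y' : ℕ → Bool, TLE y y' → Below (K y) (K y')

/-! ## Inversion -/

/-- the decidable approximation of the event `Ask p y`: string `r` = initial segment of `y` -/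
def Pd (p r : List Bool) : Bool :=
  decide (p.length ≠ 0) && decide (Nat.Partrec.Code.evaln (Nat.unpair r.length).1
    (Denumerable.ofNat Nat.Partrec.Code (vl p.length))
    (Encodable.encode (colp p, r.take (Nat.unpair r.length).2)) = some 1)

/-- PDS: `Pd` is primitive recursive and approximates `Ask`. -/
def PdsStmt : Prop := (Primrec fun q : List Bool × List Bool => Pd q.1 q.2) ∧
  ∀ (p : List Bool) (y : ℕ → Bool), Ask p y ↔ ∃ M, Pd p (pre y M) = true

/-- the smallest even number `≥ n` -/
def ev (n : ℕ) : ℕ := 2 * ((n + 1) / 2)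

/-- The string `r` computes the length: `dl v r i` is the length at stage `i`, where `v` contains
the answers. -/
def dl (v r : List Bool) : ℕ → Option ℕ
  | 0 => some 0
  | i + 1 => (dl v r i).bind fun L => if v.getD i false then
      (if (List.range (r.length + 1)).findIdx (fun M => Pd (v.take i) (r.take M)) ≤ r.length then
        some (ev (max L ((List.range (r.length + 1)).findIdx fun M => Pd (v.take i) (r.take M))) + 2)
      else none) else some (L + 2)

/-- the decoded bit number `i` (it is in the string `r` just below the length of stage `i + 1`) -/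
def db (v r : List Bool) (i : ℕ) : Bool :=
  match dl v r (i + 1) with
  | none => false
  | some L => decide (L ≤ r.length) && r.getD (L - 1) false

/-- DEC: `db` is primitive recursive. -/
def DecStmt : Prop := Primrec fun q : (List Bool × List Bool) × ℕ => db q.1.1 q.1.2 q.2

/-- CST: the construction: every `w` is coded by some `y` above `z`, the answers `K y n` depend only
on `w | n`, and `w n` is decoded from `K y | (n + 1)` and `y`. -/
def CstStmt : Prop := ∀ z : ℕ → Bool, ∃ d : List Bool → Bool, ∀ w : ℕ → Bool, ∃ y : ℕ → Bool,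
  (∀ n, y (2 * n) = z n) ∧ (∀ n, K y n = d (pre w n)) ∧
  ∀ n, w n = true ↔ ∃ N, db (pre (K y) (n + 1)) (pre y N) n = true

/-- INV: the inversion. -/
def InvStmt : Prop := ∀ z : ℕ → Bool, ∃ d : List Bool → Bool, ∀ w : ℕ → Bool, ∃ y : ℕ → Bool,
  TLE z y ∧ (∀ n, K y n = d (pre w n)) ∧ Below w (K y)

/-! ## Games -/

/-- PLY: the play of the strategy `s` (moving at the positions congruent to `r`) against the
infinitely many copies of `K y`, if `y` computes the strategy. -/
def PlyStmt : Prop := ∀ s : List Bool → Bool, ∃ z : ℕ → Bool, ∀ y, TLE z y → ∀ r < 2, ∀ x : ℕ → Bool,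
  (∀ n, n % 2 = r → x n = s (pre x n)) → (∀ n, n % 2 ≠ r → x n = pw (K y) (n / 2)) → Eqv x (K y)

/-- FIN: the theorem. -/
def FinStmt : Prop := ∀ A : Set (ℕ → Bool), VInv A → TuringInvariant (K ⁻¹' A) ∧
  (WinsI (K ⁻¹' A) ↔ WinsI A) ∧ (WinsII (K ⁻¹' A) ↔ WinsII A)

/-- TVI: Turing invariant sets are invariant under `V`. -/
def TviStmt : Prop := ∀ A : Set (ℕ → Bool), TuringInvariant A → VInv A

end Pool.Agent.TDV
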