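import Mathlib

/-!
# Two permutations of the positions
-/

set_option autoImplicit false

namespace Pool.Agent.TDV

/-- The permutation `u` of order six: it exchanges `4 n` and `4 n + 2`, and it moves
`4 n + 1 ↦ 8 n + 3 ↦ 8 n + 7 ↦ 4 n + 1`. -/
def pu (n : ℕ) : ℕ :=
  if n % 4 = 0 then n + 2 else if n % 4 = 2 then n - 2 else if n % 4 = 1 then 2 * n + 1 else
    if n % 8 = 3 then n + 4 else n / 2 - 2

/-- The permutation `v` of order three: it fixes the numbers `4 n`, and it moves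
`4 n + 2 ↦ 4 n + 1 ↦ 4 n + 3 ↦ 4 n + 2`. -/
def pv (n : ℕ) : ℕ :=
  if n % 4 = 0 then n else if n % 4 = 1 then n + 2 else n - 1

/-- `A` is invariant under the two permutations `u` and `v` of the positions. -/
def UVInv (A : Set (ℕ → Bool)) : Prop :=
  (∀ x : ℕ → Bool, x ∈ A ↔ (fun n => x (pu n)) ∈ A) ∧
    ∀ x : ℕ → Bool, x ∈ A ↔ (fun n => x (pv n)) ∈ A

end Pool.Agent.TDV
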