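import Pool.Agent.Helper10_TDV.Cst
import Pool.Agent.Helper20_TDV.Dec
import Pool.Agent.Helper21_TDV.Col
import Pool.Agent.Helper27_TDV.Ksp
import Pool.Agent.Helper31_TDV.Cun
import Pool.Agent.Helper31_TDV.Vcl
import Pool.Agent.Helper39_TDV.Vlm
import Pool.Agent.Helper40_TDV.Gen
import Pool.Agent.Helper56_TDV.Ctl
import Pool.Agent.Helper65_TDV.Fin
import Pool.Agent.Helper65_TDV.Ply
import Pool.Agent.Helper69_TDV.Cfi
import Pool.Agent.Helper69_TDV.Civ
import Pool.Agent.Helper71_TDV.Com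
import Pool.Agent.Helper71_TDV.Inv
import Pool.Agent.Helper71_TDV.Nd2
import Pool.Agent.Helper71_TDV.Nd3
import Pool.Agent.Helper71_TDV.Tur
import Pool.Agent.Helper71_TDV.Tvi
import Pool.Agent.Helper75_TDV.Csq
import Pool.Agent.Helper76_TDV.Pds
import Pool.Agent.Helper81_TDV.Uni
import Pool.Agent.Helper90_TDV.Cgs
import Pool.Agent.Helper90_TDV.Lmg

/-!
# Squad TDV: assembly
-/

set_option autoImplicit false

noncomputable section

namespace Pool.Agent.TDV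

open Pool.Agent.Helper25TD

theorem ksp_ : KspStmt := H27.ksp H39.vlm
theorem uni_ : UniStmt := H81.uni H39.vlm
theorem col_ : ColStmt := H21.col H39.vlm ksp_
theorem lmg_ : LmgStmt := H90.lmg H39.vlm uni_ ksp_ col_
theorem lmp_ : LmpStmt := H21.lmp lmg_
theorem tur_ : TurStmt := H71.tur uni_ ksp_ lmg_
theorem pds_ : PdsStmt := H76.pds H39.vlm
theorem dec_ : DecStmt := H20.dec H39.vlm pds_
theorem cst_ : CstStmt := H10.cst ksp_ pds_
theorem inv_ : InvStmt := H71.inv cst_ dec_ lmp_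
theorem ply_ : PlyStmt := H65.ply H31.vcl H39.vlm lmp_
theorem fin_ : FinStmt := H65.fin H31.vcl H39.vlm tur_ inv_ ply_
theorem tvi_ : TviStmt := H71.tvi

theorem cfw_ : CfwStmt := H71.cfw H31.cun H90.cgs
theorem cbw_ : CbwStmt := H71.cbw H31.cun H90.cgs
theorem civ_ : CivStmt := H69.civ H31.cun
theorem cfi_ : CfiStmt := H69.cfi H75.csq civ_ cfw_ cbw_ H75.cme H56.ctl

open scoped Pointwise ENNReal

/-- The theorem for torsion groups, for groups with finitely generated subgroups of subexponential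
growth and for groups which preserve finitely additive measures. -/
theorem main2 (H : Subgroup (Equiv.Perm ℕ)) (hc : Countable H)
    (h : Monoid.IsTorsion H ∨
      (∀ S : Set (Equiv.Perm ℕ), S.Finite → S ⊆ H → ∃ m : ℕ, (S ^ m).ncard < 2 ^ m) ∨
      ∀ r < 2, ∃ μ : Set ℕ → ℝ≥0∞, (∀ A B, Disjoint A B → μ (A ∪ B) = μ A + μ B) ∧
        (∀ A, A.Finite → μ A = 0) ∧ (∀ g ∈ H, ∀ A, μ (g '' A) = μ A) ∧
        0 < μ {n | n % 2 = r} ∧ μ {n | n % 2 = r} < ⊤) :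
    ∃ (P Q : Set (ℕ → Bool)) (D : (ℕ → Bool) → (ℕ → Bool)), MeasurableSet P ∧ MeasurableSet Q ∧
      Measurable D ∧ ∀ B : Set (ℕ → Bool),
        (∀ g ∈ H, ∀ x : ℕ → Bool, x ∈ P ∪ (Q ∩ D ⁻¹' B) ↔ (fun n => x (g n)) ∈ P ∪ (Q ∩ D ⁻¹' B)) ∧
        (WinsI (P ∪ (Q ∩ D ⁻¹' B)) ↔ WinsI B) ∧ (WinsII (P ∪ (Q ∩ D ⁻¹' B)) ↔ WinsII B) := by
  haveI := hc
  refine H71.nd_main H75.cme H56.ctl H90.cgs H ?_
  rcases h with h | h | h
  · refine H71.nd_torsion H fun a ha => ?_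
    obtain ⟨k, hk, he⟩ := isOfFinOrder_iff_pow_eq_one.1 (h ⟨a, ha⟩)
    exact ⟨k, hk, congrArg Subtype.val he⟩
  · exact H71.nd_growth H h
  · exact H71.nd_measure H h

end Pool.Agent.TDV
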