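import Mathlib
import Pool.Agent.Helper25_TD.Defs

/-!
# Sets of reals invariant under Thompson's group `V`

`V` acts on the positions `0, 1, 2, ...` of a real `x : ℕ → Bool`.
-/

set_option autoImplicit false

namespace Pool.Agent.TDV

/-- The permutations of `ℕ` in Thompson's group `V`: for some `N`, the permutation is of the form
`2 ^ N * n + r ↦ 2 ^ k * n + i` on each residue class `r` modulo `2 ^ N` (with `k` and `i`
depending on `r`). -/
def IsV (π : Equiv.Perm ℕ) : Prop :=
  ∃ N, ∀ r < 2 ^ N, ∃ k i, ∀ n, π (2 ^ N * n + r) = 2 ^ k * n + i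

/-- `A` is invariant under the action of `V` on the positions. -/
def VInv (A : Set (ℕ → Bool)) : Prop :=
  ∀ π : Equiv.Perm ℕ, IsV π → ∀ x : ℕ → Bool, x ∈ A ↔ (fun n => x (π n)) ∈ A

/-- The permutations in `V` which have slope one everywhere: they permute the residue classes
modulo some `2 ^ N`. -/
def IsV1 (π : Equiv.Perm ℕ) : Prop :=
  ∃ N, ∀ r < 2 ^ N, ∃ i, ∀ n, π (2 ^ N * n + r) = 2 ^ N * n + i

/-- `A` is invariant under the permutations of the residue classes modulo the powers of two. -/
def V1Inv (A : Set (ℕ → Bool)) : Prop :=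
  ∀ π : Equiv.Perm ℕ, IsV1 π → ∀ x : ℕ → Bool, x ∈ A ↔ (fun n => x (π n)) ∈ A

end Pool.Agent.TDV
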