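import Pool.Agent.TDV.Stmts

/-!
# Squad TDV (MP_917879_lc), second part: commuting families of permutations

Text: `/team-store/PAPER_TDV2.md`.
-/

set_option autoImplicit false

noncomputable section

namespace Pool.Agent.TDV

open Pool.Agent.Helper25TD

/-- `B` is invariant under finite changes -/
def Tail (B : Set (ℕ → Bool)) : Prop :=
  ∀ x y : ℕ → Bool, (∃ m, ∀ n ≥ m, x n = y n) → x ∈ B → y ∈ B

/-- `g` enumerates a commutative group of permutations of `ℕ` -/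
structure CG (g : ℕ → Equiv.Perm ℕ) : Prop where
  one : ∃ k, g k = 1
  mul : ∀ i j, ∃ k, g k = g i * g j
  inv : ∀ i, ∃ k, g k = (g i)⁻¹
  com : ∀ i j, g i * g j = g j * g i

/-- The data of the coding: `p i` is the free position number `i` (it belongs to player `i % 2`),
`c` gives the labels which the players should play at the other positions. -/
structure Dat (g : ℕ → Equiv.Perm ℕ) (p : ℕ → ℕ) (c : ℕ → Bool) : Prop where
  par : ∀ i, p i % 2 = i % 2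
  lt : ∀ i, p i < p (i + 1)
  fast : ∀ i, ∀ k ≤ i, g k (p i) < p (i + 1)
  gen : ∀ k, ∀ a < 2, ∀ b < 2, (∀ m, ∃ n ≥ m, n % 2 = a ∧ g k n % 2 = b ∧ g k n ≠ n) →
    ∀ m, ∃ n ≥ m, n % 2 = a ∧ g k n % 2 = b ∧ n ∉ Set.range p ∧ g k n ∉ Set.range p ∧
      c n ≠ c (g k n)

/-- `x` contains the labels of player `r`, moved by `g i`, up to finitely many errors -/
def Copy (g : ℕ → Equiv.Perm ℕ) (p : ℕ → ℕ) (c : ℕ → Bool) (r : ℕ) (x : ℕ → Bool) (i : ℕ) : Prop :=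
  ∃ m, ∀ n ≥ m, n % 2 = r → n ∉ Set.range p → x (g i n) = c n

/-- `x` contains a copy of the labels of player `r` -/
def RR (g : ℕ → Equiv.Perm ℕ) (p : ℕ → ℕ) (c : ℕ → Bool) (r : ℕ) (x : ℕ → Bool) : Prop :=
  ∃ i, Copy g p c r x i

open Classical in
/-- the index of the copy of the labels of player `r` -/
def ix (g : ℕ → Equiv.Perm ℕ) (p : ℕ → ℕ) (c : ℕ → Bool) (r : ℕ) (x : ℕ → Bool) : ℕ :=
  if h : ∃ i, Copy g p c r x i then Nat.find h else 0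

/-- the decoded play -/
def DD (g : ℕ → Equiv.Perm ℕ) (p : ℕ → ℕ) (c : ℕ → Bool) (x : ℕ → Bool) : ℕ → Bool :=
  fun j => x (g (ix g p c (j % 2) x) (p j))

/-- the coded payoff set -/
def AB (g : ℕ → Equiv.Perm ℕ) (p : ℕ → ℕ) (c : ℕ → Bool) (B : Set (ℕ → Bool)) :
    Set (ℕ → Bool) :=
  {x | RR g p c 0 x ∧ (¬ RR g p c 1 x ∨ DD g p c x ∈ B)}

/-- CSQ: the data exist. -/
def CsqStmt : Prop := ∀ g : ℕ → Equiv.Perm ℕ, ∃ p c, Dat g p c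

/-- CUN: uniqueness of copies. -/
def CunStmt : Prop := ∀ (g : ℕ → Equiv.Perm ℕ) (p : ℕ → ℕ) (c : ℕ → Bool), CG g → Dat g p c →
  ∀ r < 2, ∀ (x : ℕ → Bool) (i j k : ℕ), Copy g p c r x i → Copy g p c r x j →
    Copy g p c (1 - r) x k → ∃ m, ∀ n ≥ m, n % 2 = r → g i n = g j n

/-- CGS: the guess. -/
def CgsStmt : Prop := ∀ (g : ℕ → Equiv.Perm ℕ) (p : ℕ → ℕ) (c : ℕ → Bool) (r : ℕ),
  ∃ G : List Bool → ℕ, ∀ x : ℕ → Bool, RR g p c r x →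
    ∃ i, Copy g p c r x i ∧ ∃ m, ∀ n ≥ m, G (pre x n) = i

/-- CIV: the coded set is invariant. -/
def CivStmt : Prop := ∀ (g : ℕ → Equiv.Perm ℕ) (p : ℕ → ℕ) (c : ℕ → Bool), CG g → Dat g p c →
  ∀ B, Tail B → ∀ (k : ℕ) (x : ℕ → Bool), x ∈ AB g p c B ↔ (fun n => x (g k n)) ∈ AB g p c B

/-- CFW: a strategy for `B` gives a strategy for the coded set. -/
def CfwStmt : Prop := ∀ (g : ℕ → Equiv.Perm ℕ) (p : ℕ → ℕ) (c : ℕ → Bool), CG g → Dat g p c →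
  ∀ B, Tail B → (WinsI B → WinsI (AB g p c B)) ∧ (WinsII B → WinsII (AB g p c B))

/-- CBW: a strategy for the coded set gives a strategy for `B`. -/
def CbwStmt : Prop := ∀ (g : ℕ → Equiv.Perm ℕ) (p : ℕ → ℕ) (c : ℕ → Bool), CG g → Dat g p c →
  ∀ B, Tail B → (WinsI (AB g p c B) → WinsI B) ∧ (WinsII (AB g p c B) → WinsII B)

/-- CME: measurability. -/
def CmeStmt : Prop := ∀ (g : ℕ → Equiv.Perm ℕ) (p : ℕ → ℕ) (c : ℕ → Bool),
  (∀ r, MeasurableSet {x | RR g p c r x}) ∧ Measurable (DD g p c)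

/-- CTL: every game is equivalent to a game whose payoff set is a tail set, in a Borel way
(helper56). -/
def CtlStmt : Prop := ∃ (P Q : Set (ℕ → Bool)) (D : (ℕ → Bool) → (ℕ → Bool)), MeasurableSet P ∧
  MeasurableSet Q ∧ Measurable D ∧ ∀ B : Set (ℕ → Bool), Tail (P ∪ (Q ∩ D ⁻¹' B)) ∧
    (WinsI (P ∪ (Q ∩ D ⁻¹' B)) ↔ WinsI B) ∧ (WinsII (P ∪ (Q ∩ D ⁻¹' B)) ↔ WinsII B)

/-- CFI: the theorem for commuting permutations. -/
def CfiStmt : Prop := ∀ S : Set (Equiv.Perm ℕ), S.Countable → (∀ g ∈ S, ∀ h ∈ S, g * h = h * g) →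
  ∃ (P Q : Set (ℕ → Bool)) (D : (ℕ → Bool) → (ℕ → Bool)), MeasurableSet P ∧ MeasurableSet Q ∧
    Measurable D ∧ ∀ B : Set (ℕ → Bool),
      (∀ g ∈ S, ∀ x : ℕ → Bool, x ∈ P ∪ (Q ∩ D ⁻¹' B) ↔ (fun n => x (g n)) ∈ P ∪ (Q ∩ D ⁻¹' B)) ∧
      (WinsI (P ∪ (Q ∩ D ⁻¹' B)) ↔ WinsI B) ∧ (WinsII (P ∪ (Q ∩ D ⁻¹' B)) ↔ WinsII B)

end Pool.Agent.TDV
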